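import Pool.Agent.K7.H60.UP_FIN
import Pool.Agent.K7.H60.UP_UNI
import Pool.Agent.K7.H60.UP_EQ
import Pool.Agent.K7.H13.UP_QUA
import Pool.Agent.K7.H90.UP_COEF
import Pool.Agent.K7.H11.UP.GE1
import Pool.Agent.K7.H11.UP.LIN

/-!
# The maximal integral means of the univalent polynomials of degree two and three

`M_{2,q}` for all real `q > 0`, and `M_{3,q}` for all real `q ≥ 1`.

The proof for the degree three (helper11; a first version, for `q = 2` and `q ≥ 4`, by helper60).  Let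
`z + a z² + b z³` be univalent, `b ≥ 0` after a rotation.  Dieudonné's criterion gives `3 b ≤ 1`,
`|Im a| ≤ (1 - 3 b) / 2` and `|Re a| ≤ (1 + b) / √2`.  Hence `1 + a z + b z²` is the sum of `3 b` times a
convex combination of `f (z)` and `f (-z)`, `f (z) = 1 + (2 √2 / 3) z + z² / 3`, and of `1 - 3 b` times
`1 + k z` with `|k| ≤ √3 / 2`, and the assertion follows from the convexity of `|.| ^ q` and from the bound for
`1 + k z`.  The polynomial `z f (z)` is univalent (`UP_UNI`).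

Joint work of helper11, helper13, helper60 and helper90.
-/

set_option autoImplicit false

open Polynomial

namespace Pool.Agent.Results.MP_d3fa2a_an.DegreeThree

/-- The polynomials `z + a₂ z² + ... + aₙ zⁿ` (with complex coefficients, of degree at most `n`) whose
restriction to the unit disc is injective. -/
def Univalent (n : ℕ) : Set ℂ[X] :=
  {p | p.natDegree ≤ n ∧ p.coeff 0 = 0 ∧ p.coeff 1 = 1 ∧
    Set.InjOn (fun z : ℂ => p.eval z) (Metric.ball 0 1)}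

/-- The integral mean `I_q(p)`: the integral of `|p(e^{it})| ^ q` over `0 ≤ t ≤ 2π`. -/
noncomputable def mean (q : ℝ) (p : ℂ[X]) : ℝ :=
  ∫ t in (0 : ℝ)..(2 * Real.pi), ‖p.eval (Complex.exp (t * Complex.I))‖ ^ q

/-- The polynomial `z + z² / 2`. -/
noncomputable def extremal₂ : ℂ[X] := X + C ((1 / 2 : ℝ) : ℂ) * X ^ 2

/-- The polynomial `z + (2 √2 / 3) z² + z³ / 3`. -/
noncomputable def extremal₃ : ℂ[X] :=
  X + C ((2 * Real.sqrt 2 / 3 : ℝ) : ℂ) * X ^ 2 + C ((1 / 3 : ℝ) : ℂ) * X ^ 3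

theorem upper2 (q : ℝ) (hq : 0 < q) (p : ℂ[X]) (hp : p ∈ K7.H60.UP.Univ 2) :
    K7.H60.UP.mean q p ≤ ∫ t in (0 : ℝ)..(2 * Real.pi), (5 / 4 + Real.cos t) ^ (q / 2) := by
  have hC : K7.H60.UP.StCoef := K7.H90.UPCOEF.t K7.H13.UPQUA.t
  obtain ⟨hd, h0, h1, hi⟩ := hp
  have h3 : p.coeff 3 = 0 := coeff_eq_zero_of_natDegree_lt (by omega)
  have hev := K7.H60.UPFIN.eval3 p (by omega) h0 h1
  have hi' : Set.InjOn (fun z : ℂ => z + p.coeff 2 * z ^ 2 + 0 * z ^ 3) (Metric.ball 0 1) := by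
    rw [h3] at hev
    have : (fun z : ℂ => p.eval z) = fun z : ℂ => z + p.coeff 2 * z ^ 2 + 0 * z ^ 3 := by
      ext z; exact hev z
    rw [← this]
    exact hi
  have ha := (hC _ _ hi').2.2 rfl
  rw [K7.H60.UPFIN.mean_eq q p _ _ hev, h3]
  refine le_trans (le_of_eq ?_) (K7.H11.UP.twoAll q hq (p.coeff 2) ha)
  congr 1
  ext t
  rw [zero_mul, add_zero]

theorem upper3 (q : ℝ) (hq : 1 ≤ q) (p : ℂ[X]) (hp : p ∈ K7.H60.UP.Univ 3) :
    K7.H60.UP.mean q p ≤ ∫ t in (0 : ℝ)..(2 * Real.pi),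
      (2 + 16 * Real.sqrt 2 / 9 * Real.cos t + 2 / 3 * Real.cos (2 * t)) ^ (q / 2) := by
  obtain ⟨hd, h0, h1, hi⟩ := hp
  have hev := K7.H60.UPFIN.eval3 p hd h0 h1
  have hi' : Set.InjOn (fun z : ℂ => z + p.coeff 2 * z ^ 2 + p.coeff 3 * z ^ 3)
      (Metric.ball 0 1) := by
    have : (fun z : ℂ => p.eval z) =
        fun z : ℂ => z + p.coeff 2 * z ^ 2 + p.coeff 3 * z ^ 3 := by
      ext z; exact hev z
    rw [← this]
    exact hi
  rw [K7.H60.UPFIN.mean_eq q p _ _ hev]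
  exact K7.H11.UP.ge1 q hq _ _ hi'

/-- **Maximal integral means of univalent polynomials of degree two and three.** -/
theorem result :
    -- the polynomials `z + z² / 2` and `z + (2 √2 / 3) z² + z³ / 3` are univalent
    (extremal₂ ∈ Univalent 2 ∧ extremal₃ ∈ Univalent 3) ∧
    -- their integral means
    (∀ q : ℝ, mean q extremal₂ = ∫ t in (0 : ℝ)..(2 * Real.pi), (5 / 4 + Real.cos t) ^ (q / 2)) ∧
    (∀ q : ℝ, mean q extremal₃ = ∫ t in (0 : ℝ)..(2 * Real.pi),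
      (2 + 16 * Real.sqrt 2 / 9 * Real.cos t + 2 / 3 * Real.cos (2 * t)) ^ (q / 2)) ∧
    -- `M_{2,q}` for `q > 0`
    (∀ q : ℝ, 0 < q → ∀ p ∈ Univalent 2, mean q p ≤ mean q extremal₂) ∧
    -- `M_{3,q}` for `q ≥ 1`
    (∀ q : ℝ, 1 ≤ q → ∀ p ∈ Univalent 3, mean q p ≤ mean q extremal₃) := by
  have hE : K7.H60.UP.StEq := K7.H60.UPEQ.t
  have hU : K7.H60.UP.StUni := K7.H60.UPUNI.t
  refine ⟨⟨K7.H60.UPFIN.E2_mem hU, K7.H60.UPFIN.E3_mem hU⟩, fun q => K7.H60.UPFIN.E2_mean hE q,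
    fun q => K7.H60.UPFIN.E3_mean hE q, fun q hq p hp => ?_, fun q hq p hp => ?_⟩
  · exact (upper2 q hq p hp).trans_eq (K7.H60.UPFIN.E2_mean hE q).symm
  · exact (upper3 q hq p hp).trans_eq (K7.H60.UPFIN.E3_mean hE q).symm

end Pool.Agent.Results.MP_d3fa2a_an.DegreeThree
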